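import Pool.Agent.H44.GT.Targets
import Pool.Agent.H44.DU.Targets2

/-!
# There is an invariant measure of zero scale (board gd_modules, row M_EXI)
-/

set_option autoImplicit false

namespace Pool.Agent.H80.GD

open Pool.Agent.H44.DU Filter Topology

/-- the frequency of the side `r` among the first `j + 1` states -/
noncomputable def cnt {n : ℕ} (y : ℕ → Side n × ℝ) (j : ℕ) (r : Side n) : ℝ :=
  (((Finset.range (j + 1)).filter fun k => (y k).1 = r).card : ℝ) / ((j + 1 : ℕ) : ℝ)

lemma sum_cnt {n : ℕ} (y : ℕ → Side n × ℝ) (j : ℕ) (E : Finset (Side n))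
    (hE : ∀ k, (y k).1 ∈ E) (f : Side n → ℝ) :
    ∑ r ∈ E, f r * cnt y j r = (∑ k ∈ Finset.range (j + 1), f (y k).1) / ((j + 1 : ℕ) : ℝ) := by
  have h1 : ∑ r ∈ E, ∑ k ∈ (Finset.range (j + 1)).filter (fun k => (y k).1 = r), f (y k).1 =
      ∑ k ∈ Finset.range (j + 1), f (y k).1 :=
    Finset.sum_fiberwise_of_maps_to (fun k _ => hE k) _
  rw [← h1, Finset.sum_div]
  refine Finset.sum_congr rfl (fun r _ => ?_)
  have h2 : ∑ k ∈ (Finset.range (j + 1)).filter (fun k => (y k).1 = r), f (y k).1 =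
      ((Finset.range (j + 1)).filter (fun k => (y k).1 = r)).card * f r := by
    rw [← nsmul_eq_mul, ← Finset.sum_const]
    refine Finset.sum_congr rfl (fun k hk => ?_)
    rw [(Finset.mem_filter.1 hk).2]
  rw [h2]
  unfold cnt
  ring

lemma tendsto_inv_hyper (a : ℝ) :
    Tendsto (fun j : ℕ => a / ((j + 1 : ℕ) : ℝ)) (hyperfilter ℕ : Filter ℕ) (𝓝 0) := by
  have h1 : Tendsto (fun j : ℕ => a / ((j + 1 : ℕ) : ℝ)) atTop (𝓝 0) := by
    have h2 : Tendsto (fun j : ℕ => a / (j : ℝ)) atTop (𝓝 0) :=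
      tendsto_const_div_atTop_nhds_zero_nat a
    exact h2.comp (tendsto_add_atTop_nat 1)
  exact h1.mono_left Nat.hyperfilter_le_atTop

open Classical in
theorem pf_M_EXI (hCNT : M_CNT) (hLIM : M_LIM) (hCOC : M_COC) (hINF : T_INF) : M_EXI := by
  intro n S t c hn hK
  obtain ⟨y, hy⟩ := hINF n S t hn hK.ok.gd
  obtain ⟨p, hp⟩ : ∃ p : ℕ → Fin n → ℝ → ℝ, ∀ j i x, p j i x =
      (((Finset.range (j + 1)).filter fun k => (y k).1.1 = i ∧ (y k).2 ≤ x).card : ℝ) /
      ((j + 1 : ℕ) : ℝ) := ⟨_, fun _ _ _ => rfl⟩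
  have hA : ∀ j, S.AM t (2 / ((j + 1 : ℕ) : ℝ)) 1 (p j) := fun j =>
    (hCNT n S t y hy (j + 1) (Nat.succ_pos j) (p j) (hp j)).1
  have hB : ∀ j (r : Side n), xi t (S.Q r) < xi t (S.P r) →
      p j r.1 (xi t (S.P r)) - p j r.1 (xi t (S.Q r)) = cnt y j r := fun j r hr =>
    (hCNT n S t y hy (j + 1) (Nat.succ_pos j) (p j) (hp j)).2 r hr
  obtain ⟨q, hq, -, hlim⟩ := hLIM n S t c 1 hK one_pos (hyperfilter ℕ) (fun _ => t)
    (fun j => 2 / ((j + 1 : ℕ) : ℝ)) p tendsto_const_nhds (tendsto_inv_hyper 2) hA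
  have hlim' : ∀ r : Side n, xi t (S.Q r) < xi t (S.P r) →
      Tendsto (fun j => cnt y j r) (hyperfilter ℕ : Filter ℕ) (𝓝 (-S.cc t q r)) := by
    intro r hr
    have h1 := (hlim r.1 (xi t (S.P r)) _ tendsto_const_nhds).sub
      (hlim r.1 (xi t (S.Q r)) _ tendsto_const_nhds)
    have h2 : q r.1 (xi t (S.P r)) - q r.1 (xi t (S.Q r)) = -S.cc t q r := by
      unfold Surf.cc; ring
    rw [h2] at h1
    refine h1.congr (fun j => ?_)
    exact hB j r hr
  set E : Finset (Side n) := Finset.univ.filter (fun r => xi t (S.Q r) < xi t (S.P r)) with hE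
  have hyE : ∀ k, (y k).1 ∈ E := by
    intro k
    rw [hE, Finset.mem_filter]
    exact ⟨Finset.mem_univ _, (hy k).1.1.trans (hy k).1.2⟩
  have hsum : ∀ f : Side n → ℝ, Tendsto (fun j : ℕ => (∑ k ∈ Finset.range (j + 1), f (y k).1) /
      ((j + 1 : ℕ) : ℝ)) (hyperfilter ℕ : Filter ℕ) (𝓝 (∑ r ∈ E, f r * -S.cc t q r)) := by
    intro f
    have h1 : Tendsto (fun j : ℕ => ∑ r ∈ E, f r * cnt y j r) (hyperfilter ℕ : Filter ℕ)
        (𝓝 (∑ r ∈ E, f r * -S.cc t q r)) :=
      tendsto_finsetSum _ (fun r hr => (hlim' r (Finset.mem_filter.1 hr).2).const_mul _)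
    exact h1.congr (fun j => sum_cnt y j E hyE f)
  obtain ⟨hcoc, -⟩ := hCOC n S t q hq.im
  refine ⟨q, hq, ?_, ?_⟩
  · -- zero scale
    have h0 : ∑ r ∈ E, Real.log (S.a r) * -S.cc t q r = 0 := by
      have h1 := hsum (fun r => Real.log (S.a r))
      have hlog : ∀ j : ℕ, ∑ k ∈ Finset.range (j + 1), Real.log (S.a (y k).1) =
          Real.log (S.A ((List.range (j + 1)).map fun k => (y (0 + k)).1)) := by
        intro j
        rw [(S.chain_run hy 0 (j + 1)).2.2, Real.log_prod]
        · simp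
        · intro k _
          exact (S.a_pos _).ne'
      have hb : ∀ ε > (0 : ℝ), ∃ C : ℝ, ∀ j : ℕ,
          |∑ k ∈ Finset.range (j + 1), Real.log (S.a (y k).1)| ≤ C + ε * ((j + 1 : ℕ) : ℝ) := by
        intro ε hε
        obtain ⟨C₁, hC₁, h2⟩ := hK.low ε hε
        obtain ⟨C₂, hC₂, h3⟩ := hK.upp ε hε
        refine ⟨max (Real.log C₁) (Real.log C₂), fun j => ?_⟩
        rw [hlog j]
        have hrun := (S.chain_run hy 0 (j + 1)).1
        have h4 := h2 _ _ hrun
        have h5 := h3 _ _ hrun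
        have hlen : (((List.range (j + 1)).map fun k => (y (0 + k)).1).length : ℝ) =
            ((j + 1 : ℕ) : ℝ) := by simp
        rw [hlen] at h4 h5
        have hApos := S.A_pos ((List.range (j + 1)).map fun k => (y (0 + k)).1)
        have h6 := Real.log_le_log (by positivity) h4
        have h7 := Real.log_le_log hApos h5
        rw [Real.log_mul (by positivity) (Real.exp_pos _).ne', Real.log_inv, Real.log_exp] at h6
        rw [Real.log_mul hC₂.ne' (Real.exp_pos _).ne', Real.log_exp] at h7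
        rw [abs_le]
        constructor
        · have := le_max_left (Real.log C₁) (Real.log C₂)
          linarith
        · have := le_max_right (Real.log C₁) (Real.log C₂)
          linarith
      have habs : ∀ ε > (0 : ℝ), |∑ r ∈ E, Real.log (S.a r) * -S.cc t q r| ≤ ε := by
        intro ε hε
        obtain ⟨C, hC⟩ := hb ε hε
        have h2 : Tendsto (fun j : ℕ => C / ((j + 1 : ℕ) : ℝ) + ε) (hyperfilter ℕ : Filter ℕ)
            (𝓝 (0 + ε)) := (tendsto_inv_hyper C).add_const ε
        rw [zero_add] at h2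
        refine le_of_tendsto_of_tendsto' h1.abs h2 (fun j => ?_)
        have hj : (0 : ℝ) < ((j + 1 : ℕ) : ℝ) := by positivity
        rw [abs_div, abs_of_pos hj, div_le_iff₀ hj, add_mul, div_mul_cancel₀ _ hj.ne']
        exact hC j
      have h3 : |∑ r ∈ E, Real.log (S.a r) * -S.cc t q r| ≤ 0 :=
        le_of_forall_pos_le_add (fun ε hε => by rw [zero_add]; exact habs ε hε)
      exact abs_eq_zero.1 (le_antisymm h3 (abs_nonneg _))
    unfold Surf.Orth
    set F : Side n → ℝ := fun s => Real.log (S.a s) * S.cc t q s with hF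
    have hFgl : ∀ s, F (S.gl s) = F s := by
      intro s
      simp only [hF]
      rw [hcoc s, S.a_gl, Real.log_inv]
      ring
    have h1 : ∑ s ∈ E, F s = 0 := by
      have : ∑ r ∈ E, Real.log (S.a r) * -S.cc t q r = -∑ s ∈ E, F s := by
        rw [← Finset.sum_neg_distrib]
        refine Finset.sum_congr rfl (fun r _ => ?_)
        simp only [hF]; ring
      linarith
    set E' : Finset (Side n) := Finset.univ.filter (fun r => xi t (S.P r) < xi t (S.Q r)) with hE'
    have h2 : ∑ s ∈ E', F s = ∑ s ∈ E, F s := by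
      refine Finset.sum_nbij' S.gl S.gl ?_ ?_ ?_ ?_ ?_
      · intro s hs
        rw [hE', Finset.mem_filter] at hs
        rw [hE, Finset.mem_filter]
        refine ⟨Finset.mem_univ _, ?_⟩
        rw [S.xi_Q_gl, S.xi_P_gl, S.mv_lt_iff]
        exact hs.2
      · intro s hs
        rw [hE, Finset.mem_filter] at hs
        rw [hE', Finset.mem_filter]
        refine ⟨Finset.mem_univ _, ?_⟩
        rw [S.xi_Q_gl, S.xi_P_gl, S.mv_lt_iff]
        exact hs.2
      · intro s _
        exact S.gl_gl s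
      · intro s _
        exact S.gl_gl s
      · intro s _
        exact (hFgl s).symm
    have h3 : ∑ s, F s = ∑ s ∈ E, F s + ∑ s ∈ E', F s := by
      rw [hE, hE', Finset.sum_filter, Finset.sum_filter, ← Finset.sum_add_distrib]
      refine Finset.sum_congr rfl (fun s _ => ?_)
      rcases lt_trichotomy (xi t (S.Q s)) (xi t (S.P s)) with h | h | h
      · rw [if_pos h, if_neg h.not_gt, add_zero]
      · rw [if_neg h.not_lt, if_neg h.not_gt]
        simp only [hF, Surf.cc, h]
        ring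
      · rw [if_neg h.not_gt, if_pos h, zero_add]
    rw [h3, h2, h1, add_zero]
  · -- the measure does not vanish
    by_contra hz
    push Not at hz
    have h1 := hsum (fun _ => 1)
    have h2 : ∑ r ∈ E, (1 : ℝ) * -S.cc t q r = 0 := by
      refine Finset.sum_eq_zero (fun r _ => ?_)
      rw [hz r]; simp
    rw [h2] at h1
    have h3 : ∀ j : ℕ, (∑ k ∈ Finset.range (j + 1), (1 : ℝ)) / ((j + 1 : ℕ) : ℝ) = 1 := by
      intro j
      have hj : (0 : ℝ) < ((j + 1 : ℕ) : ℝ) := by positivity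
      rw [Finset.sum_const, Finset.card_range, nsmul_eq_mul, mul_one, div_self hj.ne']
    simp only [h3] at h1
    exact one_ne_zero (tendsto_nhds_unique tendsto_const_nhds h1)

end Pool.Agent.H80.GD
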